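import Pool.Agent.H37.CNM.Stmts
import Pool.Agent.H37.CNV.Stmts

/-!
# Denominators of conductors: the wreath products `C_p ≀ H`, `H` any finite group: statements of the rows of
the board `cnr`

Row `XXX` is a theorem `xxx_thm (h1 : S_AAA) ... : S_XXX` in `Pool/Agent/H<k>/CNR/XXX.lean`, importing this
file, namespace `Pool.CND`.  `C_p ≀ H` is Mathlib's `Multiplicative (ZMod p) ≀ᵣ H`.

Plan: `H`-cover `L`, `ℓ ∈ L` regular with a pole of order `n` at `P` and smaller poles at the other places at infinity; adjoin the roots `y_u` of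
`y ^ p - y = ρ_u ℓ`, `u ∈ H`.  The group is `C_p ≀ H` and the conductor is `(n + S) / e`, `e = |ram P ρ 0|`, `S = ∑ b(w)`, `w ∈ ram P ρ 1`, `w ≠ 1`.
-/

set_option autoImplicit false

namespace Pool.CND

open Finset

/-- an extension `L' / L` (along `j`) of fields with actions of `G` and of the quotient `H`, and a place `P'` above `P` -/
structure WX {k L L' G H : Type} [Field k] [Field L] [Field L'] [Algebra k L] [Algebra k L']
    [Group G] [Group H] (ρ : H →* (L ≃ₐ[k] L)) (ρ' : G →* (L' ≃ₐ[k] L')) (j : L →ₐ[k] L')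
    (π : G →* H) (P : Place k L) (P' : Place k L') (e' : ℕ) : Prop where
  inj : Function.Injective ρ
  inj' : Function.Injective ρ'
  sur : Function.Surjective π
  act : ∀ (g : G) (x : L), ρ' g (j x) = j (ρ (π g) x)
  fix : ∀ x : L', (∀ g : G, π g = 1 → ρ' g x = x) → ∃ z : L, x = j z
  pos : 1 ≤ e'
  ord : ∀ z : L, z ≠ 0 → (e' : ℤ) * P.ord z = P'.ord (j z)

/-- the inertia orders at infinity of the `H`-covers of the line branched only at infinity -/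
def Ino (k H : Type) [Field k] [Group H] : Set ℕ :=
  {e | ∃ (L : Type) (_ : Field L) (_ : Algebra k L) (ρ : H →* (L ≃ₐ[k] L)) (t : L),
    IsCover ρ t ∧ ∃ P : Place k L, P.ord t < 0 ∧ e = (ram P ρ 0).ncard}

/-! ## Relative place theory -/

/-- WP1: `A` = the kernel part of the stabiliser.  `RMX` (`N = ker π`, `J = A`): `w` fixed by the kernel, `P'.ord w = |A|`, `w = j z`, so `e' ∣ |A|`; `z` a uniformiser of `P`: `j z` is fixed by `A`, so `|A| ∣ e'` (`TOT`) -/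
def S_WP1 : Prop := ∀ (k L L' G H : Type) [Field k] [Field L] [Field L'] [Algebra k L]
  [Algebra k L'] [Group G] [Finite G] [Group H] (ρ : H →* (L ≃ₐ[k] L)) (ρ' : G →* (L' ≃ₐ[k] L'))
  (j : L →ₐ[k] L') (π : G →* H) (P : Place k L) (P' : Place k L') (e' : ℕ) (A : Subgroup G),
  WX ρ ρ' j π P P' e' → (∀ g : G, g ∈ A ↔ π g = 1 ∧ Fixes P' (ρ' g)) → e' = Nat.card A

/-- WP2: `HER` for `N = A` and the fixed field `F` of `A` (`FXP`: place `Q`, `|A| Q.ord = P'.ord`; `RST`: `γ`, `A` is normalised by `g`; `ART`): `F` contains `j L`, `Q.ord (j z) = P.ord z` by `WP1`, so `Q.b γ = P.b (ρ (π g))`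
(`j u` is a uniformiser of `Q` for `P.ord u = 1`: `LON`, `SAM` or the definition of `b`) -/
def S_WP2 : Prop := ∀ (k L L' G H : Type) [Field k] [Field L] [Field L'] [Algebra k L]
  [Algebra k L'] [Group G] [Fintype G] [Group H] (ρ : H →* (L ≃ₐ[k] L)) (ρ' : G →* (L' ≃ₐ[k] L'))
  (j : L →ₐ[k] L') (π : G →* H) (P : Place k L) (P' : Place k L') (e' : ℕ) (A : Subgroup G) (g : G),
  WX ρ ρ' j π P P' e' → (∀ g : G, g ∈ A ↔ π g = 1 ∧ Fixes P' (ρ' g)) → Fixes P' (ρ' g) →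
  π g ≠ 1 → Fixes P (ρ (π g)) ∧
  sm (fun x => P'.b (ρ' x)) {x | g⁻¹ * x ∈ A} = Nat.card A * P.b (ρ (π g))

/-- WP3: the inertia groups of `P'` and `P`.  `Fixes P (ρ h)`, `π g₀ = h`: the place `z ↦ P'.ord (ρ' g₀ z)` has the same orders as `P'` on `j L`, so by `TRV` (`C = ker π`) they are conjugate: `g = g₀ c`.  Wild groups: `WLD` (they are the Sylow
`p`-subgroups): `→`: `g` has `p`-power order; `←`: the image of `I'` is `I`, the image of `W'` has index prime to `p` in `I` -/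
def S_WP3 : Prop := ∀ (p : ℕ) (k L L' G H : Type) [Field k] [Field L] [Field L'] [Algebra k L]
  [Algebra k L'] [Group G] [Finite G] [Group H] (ρ : H →* (L ≃ₐ[k] L)) (ρ' : G →* (L' ≃ₐ[k] L'))
  (j : L →ₐ[k] L') (π : G →* H) (P : Place k L) (P' : Place k L') (e' : ℕ) (A I' : Subgroup G)
  (I : Subgroup H), p.Prime → CharP k p → WX ρ ρ' j π P P' e' →
  (∀ g : G, g ∈ A ↔ π g = 1 ∧ Fixes P' (ρ' g)) → (I' : Set G) = ram P' ρ' 0 →
  (I : Set H) = ram P ρ 0 →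
  (∀ h : H, h ∈ ram P ρ 0 ↔ ∃ g ∈ ram P' ρ' 0, π g = h) ∧
  (∀ h : H, h ∈ ram P ρ 1 ↔ ∃ g ∈ ram P' ρ' 1, π g = h) ∧
  Nat.card I' = Nat.card A * Nat.card I

/-- WP4: existence of `P'` above a given `P` at infinity.  Some `P₁` with `P₁.ord (j t) < 0` (`EXI`; finite and separable over `k(j t)` since `IsCover ρ' (j t)`), its restriction `P₀` (`RSP`); `P₀` and `P` are conjugate (`TRV`, `C = ⊤`:
nonzero elements of `k(t)` have order `0` at `P` iff they have order `0` at `P₀`); `P' = P₁ ∘ ρ' g`, `π g = h` -/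
def S_WP4 : Prop := ∀ (k L L' G H : Type) [Field k] [IsAlgClosed k] [Field L] [Field L']
  [Algebra k L] [Algebra k L'] [Group G] [Finite G] [Group H] (ρ : H →* (L ≃ₐ[k] L))
  (ρ' : G →* (L' ≃ₐ[k] L')) (j : L →ₐ[k] L') (π : G →* H) (P : Place k L) (t : L),
  IsCover ρ t → IsCover ρ' (j t) → P.ord t < 0 → Function.Surjective π →
  (∀ (g : G) (x : L), ρ' g (j x) = j (ρ (π g) x)) →
  (∀ x : L', (∀ g : G, π g = 1 → ρ' g x = x) → ∃ z : L, x = j z) →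
  ∃ (P' : Place k L') (e' : ℕ), WX ρ ρ' j π P P' e'

/-! ## The upper bound -/

/-- WRU: `c = 0` is clear.  `|I'| c = ∑ b g + l` over `W' ∖ 1` (`CON`; `l` the last value).  The sum over `W' ∖ A` is `|A|` times an integer (`WP2`).  The rest is `l + ∑ b a`, `a ∈ A ∖ 1`: if `l` is attained on `A` it is `|A| U(A)`,
`U(A)` an integer (`ELA`, `UMW`, `HBP`); otherwise `b g₀ = l`, `g₀ ∈ W'`, `g₀ ∉ A`, and it is the sum over `g₀ A` (`UM`: `b (g₀ a) = b a` if `b a < b g₀`, `a ≠ 1`), `|A| P.b (π g₀)` (`WP2`).  `|I'| = |A| |I|` (`WP3`).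
(`A ≤ W'`: `A` is a `p`-group fixing `P'`, `WLD`) -/
def S_WRU : Prop := ∀ (p : ℕ) (k L L' G H : Type) [Field k] [Field L] [Field L'] [Algebra k L]
  [Algebra k L'] [Group G] [Fintype G] [Group H] (ρ : H →* (L ≃ₐ[k] L)) (ρ' : G →* (L' ≃ₐ[k] L'))
  (j : L →ₐ[k] L') (π : G →* H) (P : Place k L) (P' : Place k L') (e' : ℕ) (A : Subgroup G)
  (I : Subgroup H) (c : ℚ), p.Prime → CharP k p → WX ρ ρ' j π P P' e' →
  (∀ g : G, g ∈ A ↔ π g = 1 ∧ Fixes P' (ρ' g)) → EA p A → (I : Set H) = ram P ρ 0 →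
  IsConductor P' ρ' c → ∃ y : ℤ, (Nat.card I : ℚ) * c = y

/-- WQU: the quotient cover with its place.  `QU1` for `C = ker π` and `G ⧸ ker π ≃* H`; `RSP` for the inclusion `j`; `E` is the fixed field of the kernel -/
def S_WQU : Prop := ∀ (k L' G H : Type) [Field k] [IsAlgClosed k] [Field L'] [Algebra k L']
  [Group G] [Finite G] [Group H] (ρ' : G →* (L' ≃ₐ[k] L')) (π : G →* H) (P' : Place k L')
  (t' : L'), IsCover ρ' t' → P'.ord t' < 0 → Function.Surjective π →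
  ∃ (L : Type) (_ : Field L) (_ : Algebra k L) (ρ : H →* (L ≃ₐ[k] L)) (t : L) (j : L →ₐ[k] L')
    (P : Place k L) (e' : ℕ), IsCover ρ t ∧ j t = t' ∧ P.ord t < 0 ∧ WX ρ ρ' j π P P' e'

/-- WUB: `WQU`, `WRU`, `NGD` (`SUB` for `I`) -/
def S_WUB : Prop := ∀ (p : ℕ) (k G H : Type) [Field k] [IsAlgClosed k] [Group G] [Finite G]
  [Group H] (π : G →* H) (n : ℕ), p.Prime → CharP k p → Function.Surjective π → EA p π.ker →
  1 ≤ n → (∀ e ∈ Ino k H, e ∣ n) → (∀ c ∈ Cond k G, ∃ y : ℤ, (n : ℚ) * c = y) ∧ NG k G ∣ n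

/-! ## The regular function -/

/-- NBX: `IsGalois.normalBasis` for `L / k(t)` (or elementary): `θ` with `ρ_u θ` independent over `k(t)`; `q(t) θ` is regular (`FRC`), `ξ = t q(t) θ`.  If `∑ a_u ρ_u ξ = c`, put `s = ∑ a_u ρ_u (q(t) θ)`, regular and not `0`, `t s = c`, so `c ≠ 0` and
`s` has a pole at the places with `t = 0` (existence: `EXI` for `1 / t`): a contradiction -/
def S_NBX : Prop := ∀ (p : ℕ) (k L H : Type) [Field k] [IsAlgClosed k] [Field L] [Algebra k L]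
  [Group H] [Fintype H] (ρ : H →* (L ≃ₐ[k] L)) (t : L), p.Prime → CharP k p → IsCover ρ t →
  ∃ ξ : L, Reg k t ξ ∧ ∀ a : H → ℕ, (∃ u, ¬ p ∣ a u) →
    ∀ c : k, ∑ u : H, (a u : L) * ρ u ξ ≠ algebraMap k L c

/-- FNL: `j` the prime-to-`p` part of `- ord ξ`; with `x_i`, `w_i` the coefficients of `ξ`, `w` in degree `- j p ^ i`: `w_0 = - α x_0`, `w_(i+1) = w_i ^ p - α x_(i+1)`, so `w_i = Q_i(α)`, `Q_0 = - x_0 X`, `Q_(i+1) = Q_i ^ p - x_(i+1) X`; some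
`x_i ≠ 0`, so `Q_r ≠ 0` for large `r` (degree `≥ 1` from the last... from the first `i` with `x_i ≠ 0` on), and `w_r = 0` for large `r` (the pole order of `w` is at most that of `ξ`) -/
def S_FNL : Prop := ∀ (p : ℕ) (k : Type) [Field k] (ξ : LaurentSeries k), p.Prime → CharP k p →
  ξ ≠ 0 → ξ.order < 0 → {α : k | ∃ w : LaurentSeries k, w ^ p - w = α • ξ}.Finite

/-- FNA: `ξ` has a pole at some place (`REG`); `LEX`, `FNL` -/
def S_FNA : Prop := ∀ (p : ℕ) (k L H : Type) [Field k] [IsAlgClosed k] [Field L] [Algebra k L]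
  [Group H] [Finite H] (ρ : H →* (L ≃ₐ[k] L)) (t ξ : L), p.Prime → CharP k p → IsCover ρ t →
  (∀ c : k, ξ ≠ algebraMap k L c) → {α : k | ∃ w : L, w ^ p - w = α • ξ}.Finite

/-- WLX: `a` with `P.ord a = 1`, `P.ord (ρ h a) = 0` for `h` not fixing `P` (`WAP` for the places `z ↦ P.ord (ρ h z)`, as in `RMX`); `s = q(t) a⁻¹` regular (`FRC`), `d = deg q`, `e = - P.ord t = |ram P ρ 0|` (`INF`, `RAM`): `P.ord s = - 1 - d e`,
`P.ord (ρ h s) = - d e`.  `ℓ = s ^ i t ^ m` with `n = i (1 + d e) + m e`, `1 ≤ i ≤ e`, `i = n` modulo `e`: `P.ord (ρ h ℓ) = - n + i` -/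
def S_WLX : Prop := ∀ (k L H : Type) [Field k] [IsAlgClosed k] [Field L] [Algebra k L]
  [Group H] [Finite H] (ρ : H →* (L ≃ₐ[k] L)) (t : L) (P : Place k L), IsCover ρ t →
  P.ord t < 0 → ∃ n₀ : ℕ, ∀ n : ℕ, n₀ ≤ n → ∃ ℓ : L, ℓ ≠ 0 ∧ Reg k t ℓ ∧ P.ord ℓ = -(n : ℤ) ∧
    ∀ h : H, ¬ Fixes P (ρ h) → -(n : ℤ) < P.ord (ρ h ℓ)

/-- WLY: `ℓ + α ξ`, `ℓ` from `WLX`, `ξ` from `NBX`, `n` larger than all `- P.ord (ρ h ξ)`.  For each nonzero `a : H → ZMod p`: two `α` for which `∑ a_u ρ_u (ℓ + α ξ)` is a `w ^ p - w` differ by an element of a finite set (`FNA` for `∑ a_u ρ_u ξ`), so only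
finitely many `α ∈ k` are bad -/
def S_WLY : Prop := ∀ (p : ℕ) (k L H : Type) [Field k] [IsAlgClosed k] [Field L] [Algebra k L]
  [Group H] [Fintype H] (ρ : H →* (L ≃ₐ[k] L)) (t : L) (P : Place k L), p.Prime → CharP k p →
  IsCover ρ t → P.ord t < 0 → ∃ n₀ : ℕ, ∀ n : ℕ, n₀ ≤ n → ∃ ℓ : L, ℓ ≠ 0 ∧ Reg k t ℓ ∧
    P.ord ℓ = -(n : ℤ) ∧ (∀ h : H, ¬ Fixes P (ρ h) → -(n : ℤ) < P.ord (ρ h ℓ)) ∧
    ∀ a : H → ℕ, (∃ u, ¬ p ∣ a u) → ∀ w : L, w ^ p - w ≠ ∑ u : H, (a u : L) * ρ u ℓ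

/-! ## The field -/

/-- WGX: `L'` = the splitting field over `L` of the `X ^ p - X - ρ_u ℓ` (or: the quotient of `L[Y_u]`); `[L' : L] = p ^ |H|` by independence (Artin-Schreier theory: induction, a `y ∈ L(y_1, ..)` with `y ^ p - y ∈ L`), so `L'` has the basis of the monomials
`∏ y_u ^ (i_u)`, `i_u < p`, and `g = (v, h)` acts by `ρ h` on `L` and `y_u ↦ y_(h u) + v(h u)` -/
def S_WGX : Prop := ∀ (p : ℕ) (k L H : Type) [Field k] [Field L] [Algebra k L] [Group H]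
  [Fintype H] (ρ : H →* (L ≃ₐ[k] L)) (ℓ : L), p.Prime → CharP k p → Function.Injective ρ →
  (∀ a : H → ℕ, (∃ u, ¬ p ∣ a u) → ∀ w : L, w ^ p - w ≠ ∑ u : H, (a u : L) * ρ u ℓ) →
  ∃ (L' : Type) (_ : Field L') (_ : Algebra k L') (j : L →ₐ[k] L') (y : H → L')
    (ρ' : (Multiplicative (ZMod p) ≀ᵣ H) →* (L' ≃ₐ[k] L')), Function.Injective ρ' ∧
    (∀ u, y u ^ p - y u = j (ρ u ℓ)) ∧ (∀ g x, ρ' g (j x) = j (ρ g.right x)) ∧
    (∀ g u, ρ' g (y u) =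
      y (g.right * u) + (((Multiplicative.toAdd (g.left (g.right * u))).val : ℕ) : L')) ∧
    ∀ x : L', (∀ g, g.right = 1 → ρ' g x = x) → ∃ z : L, x = j z

/-- WUN: it is a cover.  As `CUN`: `RSP` for the places with `t` finite: `g.right = 1` by `IsCover ρ t`, the `y_u` are regular with residues `c_u`, so `g.left u = 0` -/
def S_WUN : Prop := ∀ (p : ℕ) (k L L' H : Type) [Field k] [IsAlgClosed k] [Field L] [Algebra k L]
  [Field L'] [Algebra k L'] [Group H] [Finite H] (ρ : H →* (L ≃ₐ[k] L)) (t ℓ : L)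
  (j : L →ₐ[k] L') (y : H → L') (ρ' : (Multiplicative (ZMod p) ≀ᵣ H) →* (L' ≃ₐ[k] L')),
  p.Prime → CharP k p → IsCover ρ t → Reg k t ℓ → Function.Injective ρ' →
  (∀ u, y u ^ p - y u = j (ρ u ℓ)) → (∀ g x, ρ' g (j x) = j (ρ g.right x)) →
  (∀ g u, ρ' g (y u) =
      y (g.right * u) + (((Multiplicative.toAdd (g.left (g.right * u))).val : ℕ) : L')) →
  (∀ x : L', (∀ g, g.right = 1 → ρ' g x = x) → ∃ z : L, x = j z) → IsCover ρ' (j t)

/-- WUV: `U(A) = n`.  (i) `y_1` has order `- |A| n / p`... with `p P'.ord (y_1) = - |A| n` (`WP1`), so `p ∣ |A|`, `A ≠ ⊥`; by `ART`/`HER` some `a ∈ A` moves `y_1` (else `|A| ∣ P'.ord (y_1)` by `TOT`).  (ii) `N < A` of index `p`, `a ∈ A ∖ N`: `N` is the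
kernel in `A` of a combination `χ = ∑ c_u v(u)`, `Y = ∑ c_u y_u` is fixed by `N` and not by `a`, `a Y = Y + c`, `p P'.ord Y ≥ - |A| n`; `F`, `Q` for `N` (`FXP`, `RST`, `HER`): `B` = `Q.b` of `a` satisfies `0 ≥ Q.ord Y + B` (`LON`), `Q.ord Y ≥ - n`, so `B ≤ n`.
(iii) for `χ = v(1)`: `B = n` (`HBX`, `D = n`).  (iv) `ELG`/last part of `CMB` as in `ELA`: `U(A) = B` for an `N` avoiding some `a` with `b a = l`: `U(A) ≤ n`; `UQM` for (iii): `n ≤ U(A)` -/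
def S_WUV : Prop := ∀ (p : ℕ) (k L L' H : Type) [Field k] [IsAlgClosed k] [Field L] [Algebra k L]
  [Field L'] [Algebra k L'] [Group H] [Fintype (Multiplicative (ZMod p) ≀ᵣ H)]
  (ρ : H →* (L ≃ₐ[k] L)) (ℓ : L) (j : L →ₐ[k] L') (y : H → L')
  (ρ' : (Multiplicative (ZMod p) ≀ᵣ H) →* (L' ≃ₐ[k] L')) (P : Place k L) (P' : Place k L')
  (e' n : ℕ) (A : Subgroup (Multiplicative (ZMod p) ≀ᵣ H)),
  p.Prime → CharP k p → WX ρ ρ' j RegularWreathProduct.rightHom P P' e' →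
  (∀ u, y u ^ p - y u = j (ρ u ℓ)) →
  (∀ g u, ρ' g (y u) =
      y (g.right * u) + (((Multiplicative.toAdd (g.left (g.right * u))).val : ℕ) : L')) →
  (∀ g, g ∈ A ↔ g.right = 1 ∧ Fixes P' (ρ' g)) → ℓ ≠ 0 → P.ord ℓ = -(n : ℤ) → ¬ p ∣ n →
  (∀ h : H, -(n : ℤ) ≤ P.ord (ρ h ℓ)) → ∃ l : ℤ, IsLst (fun g => P'.b (ρ' g)) A l ∧
    U (fun g => P'.b (ρ' g)) A l = n

/-- WCC: the conductor.  `l_A` the last value on `A`, `U(A) = n` larger than all `P.b (ρ w)`, `w ∈ ram P ρ 1`, `w ≠ 1`: the last value on `W' = ram P' ρ' 1` is `l_A` (if `b g₀ > l_A` were largest, `g₀ ∉ A`: `|A| n = l_A + ∑_(A ∖ 1) b ≤ ∑_(g₀ A) b =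
|A| P.b (π g₀)`, `WP2`).  `∑_(W' ∖ A) b = |A| S` (`WP2`, `WP3`), `|I'| = |A| |I|` (`WP3`); `CNV` -/
def S_WCC : Prop := ∀ (p : ℕ) (k L L' G H : Type) [Field k] [Field L] [Field L'] [Algebra k L]
  [Algebra k L'] [Group G] [Fintype G] [Group H] [Fintype H] (ρ : H →* (L ≃ₐ[k] L))
  (ρ' : G →* (L' ≃ₐ[k] L')) (j : L →ₐ[k] L') (π : G →* H) (P : Place k L) (P' : Place k L')
  (e' n : ℕ) (A : Subgroup G) (I : Subgroup H) (l : ℤ), p.Prime → CharP k p →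
  WX ρ ρ' j π P P' e' → (∀ g : G, g ∈ A ↔ π g = 1 ∧ Fixes P' (ρ' g)) →
  (∃ a : ℕ, Nat.card A = p ^ a) → (I : Set H) = ram P ρ 0 → IsLst (fun g => P'.b (ρ' g)) A l →
  U (fun g => P'.b (ρ' g)) A l = n → (∀ w ∈ ram P ρ 1, w ≠ 1 → P.b (ρ w) < n) →
  IsConductor P' ρ' (((n : ℤ) + sm (fun w => P.b (ρ w)) {w | w ∈ ram P ρ 1 ∧ w ≠ 1} : ℤ) /
    Nat.card I)

/-- WRL: `WLY` for large `n` prime to `p`, `WGX`, `WUN`, `WP4`, `WUV`, `WCC`: the `(n + S) / e` are conductors.  `ALL` for `n = 1` modulo `p` and `n + 1` (`p` odd), `n + 2` (`p = 2`): `e ∣ gcd(2, p) N` -/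
def S_WRL : Prop := ∀ (p : ℕ) (k H : Type) [Field k] [IsAlgClosed k] [Group H] [Finite H],
  p.Prime → CharP k p → ∀ e ∈ Ino k H, e ∣ Nat.gcd 2 p * NG k (Multiplicative (ZMod p) ≀ᵣ H)

/-! ## Results -/

/-- WRE: `WRL`, `WUB` (`G` = the wreath product, `π = rightHom`, kernel elementary abelian) -/
def S_WRE : Prop := ∀ (p : ℕ) (k H : Type) [Field k] [IsAlgClosed k] [Group H] [Finite H],
  p.Prime → CharP k p →
  (∀ e ∈ Ino k H, e ∣ Nat.gcd 2 p * NG k (Multiplicative (ZMod p) ≀ᵣ H)) ∧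
  ∀ n : ℕ, 1 ≤ n → (∀ e ∈ Ino k H, e ∣ n) →
    (∀ c ∈ Cond k (Multiplicative (ZMod p) ≀ᵣ H), ∃ y : ℤ, (n : ℚ) * c = y) ∧
    NG k (Multiplicative (ZMod p) ≀ᵣ H) ∣ n

/-- WRP: `p`-groups `H`: `Ino k H = {|H|}` (`PTR`; `PEX` or `HasCover` for the existence; `ram 1 = univ` gives `ram 0 = univ`); `WRE` -/
def S_WRP : Prop := ∀ (p : ℕ) (k H : Type) [Field k] [IsAlgClosed k] [Group H] [Finite H],
  p.Prime → CharP k p → (∃ n : ℕ, Nat.card H = p ^ n) →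
  (p ≠ 2 → NG k (Multiplicative (ZMod p) ≀ᵣ H) = Nat.card H) ∧
  NG k (Multiplicative (ZMod p) ≀ᵣ H) ∣ Nat.card H ∧
  Nat.card H ∣ Nat.gcd 2 p * NG k (Multiplicative (ZMod p) ≀ᵣ H)

/-- WRS: `H = SL_2(F)`.  Upper bound: `I = ram 0`, `W = ram 1`, `|I| = n |W|` (`WLD`), `W ≠ ⊥` (`NCL` for `N = ⊥`), `n ∣ q - 1` (`SLW`), `|W| ∣ q` (the `p`-part of `|SL_2(F)| = q (q ^ 2 - 1)`).  Lower bound: `SLE`, `SLI`, `SLF` for `m = 1`:
`ram 0` = the matrices with `g 1 0 = 0`, `q (q - 1)` of them (as in `SLN`) -/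
def S_WRS : Prop := ∀ (p : ℕ) (k F : Type) [Field k] [IsAlgClosed k] [Field F] (f q : ℕ),
  p.Prime → p ≠ 2 → CharP k p → 1 ≤ f → q = p ^ f → Nat.card F = q → CharP F p →
  NG k (Multiplicative (ZMod p) ≀ᵣ Matrix.SpecialLinearGroup (Fin 2) F) = q * (q - 1)

/-- WRT: `H = SU_3(q)`.  Upper bound: `W = ram 1 ≠ ⊥` (`NCL`), `I` normalises `W`, so `VB1` puts a conjugate of `I` in `B = {g_10 = g_20 = 0}`, `|B| = q ^ 3 (q ^ 2 - 1)` (`UNB`).  Lower bound: `UNE`, `UNK`, `UNF`: `ram 0 = B` -/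
def S_WRT : Prop := ∀ (p : ℕ) (k F : Type) [Field k] [IsAlgClosed k] [Field F] (f q : ℕ)
  (σ : F →+* F), p.Prime → p ≠ 2 → CharP k p → 1 ≤ f → q = p ^ f → Nat.card F = q ^ 2 →
  CharP F p → (∀ a, σ a = a ^ q) →
  NG k (Multiplicative (ZMod p) ≀ᵣ SU3 σ) = q ^ 3 * (q ^ 2 - 1)

end Pool.CND
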